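import Mathlib

set_option autoImplicit false
set_option maxHeartbeats 400000

namespace Pool.Agent.Results.MP_122225_al.NotAmenable

open Finset Filter Topology
open scoped InnerProductSpace

/-- The entry `M_{st} = |{i : x_i s = t}| / k`. -/
noncomputable def M {S : Type} [Monoid S] {k : ℕ} (X : Fin k → S) (s t : S) : ℝ :=
  (Nat.card {i // X i * s = t} : ℝ) / k

/-- A left invariant finitely additive probability measure on all subsets exists. -/
def LeftAmenable (S : Type) [Monoid S] : Prop :=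
  ∃ μ : Set S → ℝ, (∀ A, 0 ≤ μ A) ∧ μ Set.univ = 1 ∧
    (∀ A B, Disjoint A B → μ (A ∪ B) = μ A + μ B) ∧ ∀ (a : S) (A : Set S), μ {s | a * s ∈ A} = μ A

/-- The norm, the norms of all powers and the limit of `‖T^n‖^(1/n)` are at least one. -/
def Large {E : Type} [NormedAddCommGroup E] [NormedSpace ℝ E] (T : E →L[ℝ] E) : Prop :=
  1 ≤ ‖T‖ ∧ (∀ n : ℕ, 1 ≤ ‖T ^ n‖) ∧
    ∀ ρ : ℝ, Tendsto (fun n : ℕ => ‖T ^ n‖ ^ (1 / (n : ℝ))) atTop (𝓝 ρ) → 1 ≤ ρ

/-- On a normed space `E` of functions (read through `ev`), `v ↦ vM` is a bounded operator which is `Large`. -/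
def LargeWalk {S E : Type} [Monoid S] [NormedAddCommGroup E] [NormedSpace ℝ E] (ev : E → S → ℝ)
    {k : ℕ} (X : Fin k → S) : Prop :=
  ∃ T : E →L[ℝ] E, (∀ v t, HasSum (fun s => ev v s * M X s t) (ev (T v) t)) ∧ Large T

section ops
variable {S : Type}

abbrev L2 (S : Type) := lp (fun _ : S => ℝ) 2

theorem bound [DecidableEq S] (f : S → S) (hf : ∀ (A : Finset S) (t : S), #{a ∈ A | f a = t} ≤ 9)
    (v : L2 S) (A : Finset S) :
    ∑ i ∈ A, ‖v (f i)‖ ^ (2 : ENNReal).toReal ≤ (3 * ‖v‖) ^ (2 : ENNReal).toReal := by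
  have h := lp.sum_rpow_le_norm_rpow (p := 2) (by norm_num) v (A.image f)
  rw [sum_comp (fun t => ‖v t‖ ^ (2 : ENNReal).toReal) f, Real.mul_rpow (by norm_num) (by positivity)]
  calc _ ≤ ∑ t ∈ A.image f, 9 * ‖v t‖ ^ (2 : ENNReal).toReal := by
        refine sum_le_sum fun t _ => ?_
        rw [nsmul_eq_mul]
        gcongr
        exact_mod_cast hf A t
    _ ≤ _ := by
        rw [← mul_sum]
        gcongr
        norm_num

noncomputable def pull [DecidableEq S] (f : S → S)
    (hf : ∀ (A : Finset S) (t : S), #{a ∈ A | f a = t} ≤ 9) : L2 S →L[ℝ] L2 S :=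
  LinearMap.mkContinuous
    { toFun := fun v => ⟨fun s => v (f s), memℓp_gen' (bound f hf v)⟩
      map_add' := fun _ _ => rfl
      map_smul' := fun _ _ => rfl } 3
    fun v => lp.norm_le_of_forall_sum_le (by norm_num) (by positivity) (bound f hf v)

end ops

abbrev F := FreeGroup (Fin 2)

@[ext] structure S0 where
  g : F
  τ : Bool
  w : List Bool
  m : ℕ
  deriving DecidableEq

instance : Mul S0 := ⟨fun x y => ⟨x.g * y.g, x.τ || y.τ, if y.τ then y.w else x.w ++ y.w.drop x.m,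
  if y.τ then y.m else y.m + (x.m - y.w.length)⟩⟩
instance : One S0 := ⟨⟨1, false, [], 0⟩⟩

theorem mul_def (x y : S0) : x * y = ⟨x.g * y.g, x.τ || y.τ,
  if y.τ then y.w else x.w ++ y.w.drop x.m, if y.τ then y.m else y.m + (x.m - y.w.length)⟩ := rfl
theorem one_def : (1 : S0) = ⟨1, false, [], 0⟩ := rfl

instance : Monoid S0 where
  mul_assoc x y z := by
    ext1
    · simp [mul_def, mul_assoc]
    · simp [mul_def, Bool.or_assoc]
    · cases hy : y.τ <;> cases hz : z.τ <;> simp [mul_def, hy, hz, List.drop_append]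
    · cases hy : y.τ <;> cases hz : z.τ <;> simp [mul_def, hy, hz]
      omega
  one_mul x := by ext1 <;> simp [mul_def, one_def]
  mul_one x := by ext1 <;> simp [mul_def, one_def]

def z : S0 := ⟨1, false, [], 1⟩
def t0 : S0 := ⟨1, true, [], 0⟩

def X0 (i : Fin 24) : S0 :=
  if i = 0 then ⟨.of 0, false, [], 0⟩ else if i = 1 then ⟨(FreeGroup.of 0)⁻¹, false, [], 0⟩ else
  if i = 2 then ⟨.of 1, false, [], 0⟩ else if i = 3 then ⟨(FreeGroup.of 1)⁻¹, false, [], 0⟩ else
  if i = 4 then t0 else if i = 5 then ⟨1, false, [false], 0⟩ else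
  if i = 6 then ⟨1, false, [true], 0⟩ else z

theorem X0_m (i : Fin 24) : (X0 i).m ≤ 1 := by
  unfold X0
  split_ifs <;> simp [z, t0]

theorem X0_z (i : Fin 24) (h : 7 ≤ i) : X0 i = z := by
  unfold X0
  split_ifs <;> first | rfl | omega

theorem fib (x : S0) (hx : x.m ≤ 1) (A : Finset S0) (t : S0) : #{a ∈ A | x * a = t} ≤ 9 := by
  refine le_trans (card_le_card_of_injOn (t := univ) (fun a => (a.τ, a.w.head?)) (by simp) ?_)
    (by decide)
  rintro ⟨g, τ, w, m⟩ h1 ⟨g', τ', w', m'⟩ h2 h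
  have h3 := (mem_filter.1 (mem_coe.1 h1)).2.trans (mem_filter.1 (mem_coe.1 h2)).2.symm
  clear h1 h2
  simp only [Prod.mk.injEq] at h
  obtain ⟨rfl, h⟩ := h
  obtain h0 | h0 : x.m = 0 ∨ x.m = 1 := by omega
  · cases τ <;> simp_all [mul_def]
  · cases τ <;> cases w <;> cases w' <;> simp_all [mul_def]

theorem gen : Submonoid.closure (Set.range X0) = ⊤ := by
  have hX : ∀ i, X0 i ∈ Submonoid.closure (Set.range X0) := fun i =>
    Submonoid.subset_closure ⟨i, rfl⟩
  have h1 : ∀ g : F, (⟨g, false, [], 0⟩ : S0) ∈ Submonoid.closure (Set.range X0) := by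
    intro g
    induction g using FreeGroup.induction_on with
    | C1 => exact one_mem _
    | of x => fin_cases x; exacts [hX 0, hX 2]
    | inv_of x _ => fin_cases x; exacts [hX 1, hX 3]
    | mul x y hx hy => exact mul_mem hx hy
  have h2 : ∀ m : ℕ, (⟨1, false, [], m⟩ : S0) ∈ Submonoid.closure (Set.range X0) := by
    intro m
    induction m with
    | zero => exact one_mem _
    | succ m ih => simpa [mul_def, X0, z] using mul_mem (hX 7) ih
  have h3 : ∀ (w : List Bool) (m : ℕ),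
      (⟨1, false, w, m⟩ : S0) ∈ Submonoid.closure (Set.range X0) := by
    intro w m
    induction w with
    | nil => exact h2 m
    | cons b w ih =>
      cases b
      · simpa [mul_def, X0] using mul_mem (hX 5) ih
      · simpa [mul_def, X0] using mul_mem (hX 6) ih
  rw [eq_top_iff]
  rintro ⟨g, τ, w, m⟩ -
  cases τ
  · simpa [mul_def] using mul_mem (h1 g) (h3 w m)
  · simpa [mul_def, X0, t0] using mul_mem (h1 g) (mul_mem (hX 4) (h3 w m))

theorem not_amen : ¬ LeftAmenable S0 := by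
  rintro ⟨μ, h0, h1, h2, h3⟩
  have mono : ∀ A B, A ⊆ B → μ A ≤ μ B := fun A B h => by
    rw [← Set.union_sdiff_cancel h, h2 _ _ Set.disjoint_sdiff_right]
    linarith [h0 (B \ A)]
  obtain ⟨W, hW⟩ : ∃ W : Fin 2 × Bool → Set S0, ∀ w s, s ∈ W w ↔ s.g ∈ FreeGroup.startsWith w :=
    ⟨fun w => {s | s.g ∈ FreeGroup.startsWith w}, fun _ _ => Iff.rfl⟩
  have dj : ∀ w w', w ≠ w' → Disjoint (W w) (W w') := fun w w' h => Set.disjoint_left.2
    fun s k k' => Set.disjoint_left.1 (FreeGroup.startsWith.disjoint_iff_ne.2 h) ((hW _ _).1 k)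
      ((hW _ _).1 k')
  have key : ∀ i, 1 ≤ μ (W (i, false) ∪ W (i, true)) := fun i => by
    rw [h2 _ _ (dj _ _ (by simp)), ← h3 ⟨FreeGroup.mk [(i, true)], false, [], 0⟩ (W (i, true)),
      ← h1, ← Set.union_compl_self (W (i, false)), h2 _ _ disjoint_compl_right]
    gcongr
    refine mono _ _ fun s hs => (hW _ _).2 (FreeGroup.startsWith_mk_mul s.g fun k => hs ?_)
    exact (hW _ _).2 k
  have := mono ((W (0, false) ∪ W (0, true)) ∪ (W (1, false) ∪ W (1, true))) _ (Set.subset_univ _)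
  rw [h2 _ _ (by simp [dj]), h1] at this
  linarith [key 0, key 1]

noncomputable def C : L2 S0 →L[ℝ] L2 S0 :=
  (1 / 24 : ℝ) • ∑ i, pull (fun s => X0 i * s) (fib _ (X0_m i))

theorem C_apply (v : L2 S0) (s : S0) : C v s = (1 / 24 : ℝ) * ∑ i, v (X0 i * s) := by
  simp only [C, smul_apply, _root_.sum_apply, lp.coeFn_smul,
    lp.coeFn_sum, Pi.smul_apply, Finset.sum_apply, smul_eq_mul]
  rfl

theorem C_pow (n : ℕ) : (∀ s, 0 ≤ (C ^ n) (lp.single 2 1 1) s) ∧
    ∀ w : List Bool, w.length = n → (17 / 24 : ℝ) ^ n ≤ (C ^ n) (lp.single 2 1 1) ⟨1, false, w, 0⟩ := by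
  induction n with
  | zero =>
    refine ⟨fun s => ?_, fun w hw => ?_⟩
    · simp only [pow_zero, one_apply_eq_self, lp.single_apply, Pi.single_apply]
      split_ifs <;> norm_num
    · rw [List.length_eq_zero_iff.1 hw, ← one_def]
      simp
  | succ n ih =>
    rw [pow_succ' C]
    refine ⟨fun s => ?_, fun w hw => ?_⟩
    · rw [mul_apply_eq_comp, C_apply]
      exact mul_nonneg (by norm_num) (sum_nonneg fun i _ => ih.1 _)
    · obtain ⟨b, w, rfl⟩ := List.exists_cons_of_length_eq_add_one hw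
      rw [mul_apply_eq_comp, C_apply]
      have h1 : ∑ _i ∈ Ici (7 : Fin 24), (17 / 24 : ℝ) ^ n ≤
          ∑ i, (C ^ n) (lp.single 2 1 1) (X0 i * ⟨1, false, b :: w, 0⟩) := by
        refine le_trans (sum_le_sum fun i hi => ?_)
          (sum_le_sum_of_subset_of_nonneg (subset_univ (Ici 7)) fun i _ _ => ih.1 _)
        rw [X0_z i (mem_Ici.1 hi)]
        simpa [mul_def, z] using ih.2 w (by simpa using hw)
      rw [sum_const, show #(Ici (7 : Fin 24)) = 17 by decide, nsmul_eq_mul] at h1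
      rw [pow_succ]
      rw [Nat.cast_ofNat] at h1
      linarith

theorem C_norm (n : ℕ) : 1 ≤ ‖C ^ n‖ := by
  have h1 := lp.sum_rpow_le_norm_rpow (p := 2) (by norm_num) ((C ^ n) (lp.single 2 1 1))
    (univ.image fun e : Fin n → Bool => (⟨1, false, List.ofFn e, 0⟩ : S0))
  rw [sum_image fun e _ e' _ h => List.ofFn_injective (congrArg S0.w h)] at h1
  simp only [ENNReal.toReal_ofNat, Real.rpow_ofNat] at h1
  have h2 : ∑ _e : Fin n → Bool, ((17 / 24 : ℝ) ^ n) ^ 2 ≤ _ := le_trans (sum_le_sum fun e _ => by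
    have := (C_pow n).2 (List.ofFn e) (by simp)
    exact pow_le_pow_left₀ (by positivity) (this.trans (le_abs_self _)) 2) h1
  have h3 := (C ^ n).le_opNorm (lp.single 2 1 1)
  rw [lp.norm_single (by norm_num), norm_one, mul_one] at h3
  have h4 : (1 : ℝ) ≤ ∑ _e : Fin n → Bool, ((17 / 24 : ℝ) ^ n) ^ 2 := by
    rw [sum_const, card_univ, Fintype.card_fun, Fintype.card_bool, Fintype.card_fin, nsmul_eq_mul,
      Nat.cast_pow, ← pow_mul, mul_comm n, pow_mul, ← mul_pow]
    exact one_le_pow₀ (by norm_num)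
  refine le_trans ?_ h3
  exact (one_le_sq_iff₀ (norm_nonneg _)).1 (h4.trans h2)

theorem result : ∃ (S : Type) (_ : Monoid S) (k : ℕ) (X : Fin k → S),
    Submonoid.closure (Set.range X) = ⊤ ∧ (∀ a b : S, ∃ s t, a * s = b * t) ∧
    (∀ s x y : S, s * x = s * y → ∃ t, x * t = y * t) ∧ ¬ LeftAmenable S ∧
    LargeWalk (fun (v : lp (fun _ : S => ℝ) 2) (s : S) => v s) X := by
  have hT : ∀ n : ℕ, 1 ≤ ‖(star C) ^ n‖ := fun n => by
    rw [← star_pow, ContinuousLinearMap.star_eq_adjoint, LinearIsometryEquiv.norm_map]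
    exact C_norm n
  refine ⟨S0, inferInstance, 24, X0, gen, fun a b => ⟨⟨a.g⁻¹, true, [], 0⟩, ⟨b.g⁻¹, true, [], 0⟩, ?_⟩,
    fun s x y h => ⟨t0, ?_⟩, not_amen, star C, fun v t => ?_, by simpa using hT 1, hT,
    fun ρ h => ge_of_tendsto' h fun n => Real.one_le_rpow (hT n) (by positivity)⟩
  · simp [mul_def]
  · simpa [mul_def, t0] using congrArg S0.g h
  · have h1 := lp.hasSum_inner (𝕜 := ℝ) v (C (lp.single 2 t 1))
    rw [← ContinuousLinearMap.adjoint_inner_left, lp.inner_single_right,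
      ← ContinuousLinearMap.star_eq_adjoint] at h1
    simp only [RCLike.inner_apply, conj_trivial, one_mul, C_apply, lp.single_apply, Pi.single_apply,
      sum_boole] at h1
    refine h1.congr_fun fun s => ?_
    rw [M, Nat.card_eq_fintype_card, Fintype.card_subtype]
    push_cast
    ring

end Pool.Agent.Results.MP_122225_al.NotAmenable
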